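import Pool.Agent.Lib.MP_a0d8b4_co.Main

set_option autoImplicit false

namespace Pool.Agent.Results.MP_a0d8b4_co.Sublinear

open Pool.Agent.Lib.MP_a0d8b4_co

/-- For every genus `g ≥ 1` some complete rotation system of size `O(g^(2/3))` is not simply
realizable in the orientable surface of genus `g`. -/
theorem result : ∃ C : ℕ, ∀ g : ℕ, 1 ≤ g → ∃ n : ℕ, 2 ≤ n ∧ n ^ 3 ≤ C * g ^ 2 ∧
    ∃ R : RotSys n, IsEmpty (Drawing R g) :=
  main

end Pool.Agent.Results.MP_a0d8b4_co.Sublinear
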